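import Mathlib

set_option autoImplicit false

open MeasureTheory

namespace Pool.Agent.Helper99.Tile

/-- `χ` is the Fourier transform of a finite complex measure carried by `[-τ, τ]` (the measure is
presented as the image, under a bounded frequency map, of a finite measure with a bounded
density). -/
def BandLimited (τ : ℝ) (χ : ℝ → ℂ) : Prop :=
  ∃ (S : Type) (_ : MeasurableSpace S) (μ : Measure S) (_ : IsFiniteMeasure μ) (t : S → ℝ)
    (a : S → ℂ) (A : ℝ), Measurable t ∧ Measurable a ∧ (∀ s, |t s| ≤ τ) ∧ (∀ s, ‖a s‖ ≤ A) ∧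
    ∀ x : ℝ, χ x = ∫ s, a s * Complex.exp (Complex.I * ((t s : ℂ) * (x : ℂ))) ∂μ

theorem norm_exp_I (t x : ℝ) : ‖Complex.exp (Complex.I * ((t : ℂ) * (x : ℂ)))‖ = 1 := by
  have : Complex.I * ((t : ℂ) * (x : ℂ)) = ((t * x : ℝ) : ℂ) * Complex.I := by
    push_cast; ring
  rw [this, Complex.norm_exp_ofReal_mul_I]

theorem BandLimited.mono {τ τ' : ℝ} {χ : ℝ → ℂ} (h : BandLimited τ χ) (hτ : τ ≤ τ') :
    BandLimited τ' χ := by
  obtain ⟨S, m, μ, hμ, t, a, A, ht, ha, hb, hA, hx⟩ := h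
  exact ⟨S, m, μ, hμ, t, a, A, ht, ha, fun s => (hb s).trans hτ, hA, hx⟩

theorem BandLimited.congr {τ : ℝ} {χ χ' : ℝ → ℂ} (h : BandLimited τ χ) (h' : ∀ x, χ' x = χ x) :
    BandLimited τ χ' := by
  obtain rfl : χ' = χ := funext h'
  exact h

theorem bandLimited_exp {τ : ℝ} (t : ℝ) (ht : |t| ≤ τ) (a : ℂ) :
    BandLimited τ (fun x => a * Complex.exp (Complex.I * ((t : ℂ) * (x : ℂ)))) := by
  refine ⟨Unit, inferInstance, Measure.dirac (), inferInstance, fun _ => t, fun _ => a, ‖a‖,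
    measurable_const, measurable_const, fun _ => ht, fun _ => le_rfl, fun x => ?_⟩
  simp

theorem bandLimited_const {τ : ℝ} (hτ : 0 ≤ τ) (a : ℂ) : BandLimited τ (fun _ => a) := by
  refine (bandLimited_exp (τ := τ) 0 (by simpa using hτ) a).congr fun x => ?_
  simp

theorem BandLimited.mul {τ₁ τ₂ : ℝ} {χ₁ χ₂ : ℝ → ℂ} (h₁ : BandLimited τ₁ χ₁)
    (h₂ : BandLimited τ₂ χ₂) : BandLimited (τ₁ + τ₂) (fun x => χ₁ x * χ₂ x) := by
  obtain ⟨S₁, m₁, μ₁, hμ₁, t₁, a₁, A₁, ht₁, ha₁, hb₁, hA₁, hx₁⟩ := h₁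
  obtain ⟨S₂, m₂, μ₂, hμ₂, t₂, a₂, A₂, ht₂, ha₂, hb₂, hA₂, hx₂⟩ := h₂
  refine ⟨S₁ × S₂, inferInstance, μ₁.prod μ₂, inferInstance, fun p => t₁ p.1 + t₂ p.2,
    fun p => a₁ p.1 * a₂ p.2, A₁ * A₂, by fun_prop, by fun_prop, fun p => ?_, fun p => ?_,
    fun x => ?_⟩
  · exact (abs_add_le _ _).trans (add_le_add (hb₁ _) (hb₂ _))
  · rw [norm_mul]
    exact mul_le_mul (hA₁ _) (hA₂ _) (norm_nonneg _) ((norm_nonneg _).trans (hA₁ p.1))
  · beta_reduce
    rw [hx₁, hx₂, ← integral_prod_mul]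
    congr 1
    ext p
    push_cast
    have : Complex.I * (((t₁ p.1 : ℂ) + (t₂ p.2 : ℂ)) * (x : ℂ)) =
      Complex.I * ((t₁ p.1 : ℂ) * (x : ℂ)) + Complex.I * ((t₂ p.2 : ℂ) * (x : ℂ)) := by ring
    rw [this, Complex.exp_add]
    ring

theorem BandLimited.const_mul {τ : ℝ} {χ : ℝ → ℂ} (h : BandLimited τ χ) (c : ℂ) :
    BandLimited τ (fun x => c * χ x) := by
  have := (bandLimited_const (τ := 0) le_rfl c).mul h
  rwa [zero_add] at this

theorem BandLimited.add {τ : ℝ} {χ₁ χ₂ : ℝ → ℂ} (h₁ : BandLimited τ χ₁)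
    (h₂ : BandLimited τ χ₂) : BandLimited τ (fun x => χ₁ x + χ₂ x) := by
  obtain ⟨S₁, m₁, μ₁, hμ₁, t₁, a₁, A₁, ht₁, ha₁, hb₁, hA₁, hx₁⟩ := h₁
  obtain ⟨S₂, m₂, μ₂, hμ₂, t₂, a₂, A₂, ht₂, ha₂, hb₂, hA₂, hx₂⟩ := h₂
  have hm : ∀ (x : ℝ), Measurable (fun s => Sum.elim a₁ a₂ s *
      Complex.exp (Complex.I * (((Sum.elim t₁ t₂ s : ℝ) : ℂ) * (x : ℂ)))) := by
    intro x
    have h1 : Measurable (Sum.elim a₁ a₂) := Measurable.sumElim ha₁ ha₂
    have h2 : Measurable (Sum.elim t₁ t₂) := Measurable.sumElim ht₁ ht₂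
    fun_prop
  have hbd : ∀ (x : ℝ), ∀ s, ‖Sum.elim a₁ a₂ s *
      Complex.exp (Complex.I * (((Sum.elim t₁ t₂ s : ℝ) : ℂ) * (x : ℂ)))‖ ≤ max A₁ A₂ := by
    intro x s
    rw [norm_mul, norm_exp_I, mul_one]
    rcases s with s | s
    · exact (hA₁ s).trans (le_max_left _ _)
    · exact (hA₂ s).trans (le_max_right _ _)
  refine ⟨S₁ ⊕ S₂, inferInstance, μ₁.map Sum.inl + μ₂.map Sum.inr, inferInstance,
    Sum.elim t₁ t₂, Sum.elim a₁ a₂, max A₁ A₂, Measurable.sumElim ht₁ ht₂,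
    Measurable.sumElim ha₁ ha₂, fun s => ?_, fun s => ?_, fun x => ?_⟩
  · rcases s with s | s
    · exact hb₁ s
    · exact hb₂ s
  · rcases s with s | s
    · exact (hA₁ s).trans (le_max_left _ _)
    · exact (hA₂ s).trans (le_max_right _ _)
  · have hi : ∀ ν : Measure (S₁ ⊕ S₂), IsFiniteMeasure ν → Integrable (fun s => Sum.elim a₁ a₂ s *
      Complex.exp (Complex.I * (((Sum.elim t₁ t₂ s : ℝ) : ℂ) * (x : ℂ)))) ν := by
      intro ν hν
      exact Integrable.of_bound (hm x).aestronglyMeasurable (max A₁ A₂)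
        (Filter.Eventually.of_forall (hbd x))
    rw [integral_add_measure (hi _ inferInstance) (hi _ inferInstance),
      integral_map measurable_inl.aemeasurable (hm x).aestronglyMeasurable,
      integral_map measurable_inr.aemeasurable (hm x).aestronglyMeasurable]
    beta_reduce
    rw [hx₁, hx₂]
    rfl

theorem BandLimited.pow {τ : ℝ} {χ : ℝ → ℂ} (h : BandLimited τ χ) (n : ℕ) :
    BandLimited (n * τ) (fun x => χ x ^ n) := by
  induction n with
  | zero => simpa using bandLimited_const (τ := 0) le_rfl 1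
  | succ n ih =>
    have := ih.mul h
    refine (this.mono ?_).congr fun x => ?_
    · push_cast; linarith
    · rw [pow_succ]

/-- translation -/
theorem BandLimited.translate {τ : ℝ} {χ : ℝ → ℂ} (h : BandLimited τ χ) (c : ℝ) :
    BandLimited τ (fun x => χ (x - c)) := by
  obtain ⟨S, m, μ, hμ, t, a, A, ht, ha, hb, hA, hx⟩ := h
  refine ⟨S, m, μ, hμ, t, fun s => a s * Complex.exp (Complex.I * ((t s : ℂ) * ((-c : ℝ) : ℂ))), A,
    ht, by fun_prop, hb, fun s => ?_, fun x => ?_⟩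
  · rw [norm_mul, norm_exp_I, mul_one]
    exact hA s
  · beta_reduce
    rw [hx]
    congr 1
    ext s
    rw [mul_assoc, ← Complex.exp_add]
    congr 2
    push_cast
    ring

theorem bandLimited_cos (ω : ℝ) : BandLimited |ω| (fun x => ((Real.cos (ω * x) : ℝ) : ℂ)) := by
  have h1 := bandLimited_exp (τ := |ω|) ω le_rfl (1 / 2)
  have h2 := bandLimited_exp (τ := |ω|) (-ω) (by rw [abs_neg]) (1 / 2)
  refine (h1.add h2).congr fun x => ?_
  push_cast
  rw [Complex.cos]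
  have e1 : Complex.I * ((ω : ℂ) * (x : ℂ)) = (ω : ℂ) * x * Complex.I := by ring
  have e2 : Complex.I * (-(ω : ℂ) * (x : ℂ)) = -((ω : ℂ) * x) * Complex.I := by ring
  rw [e1, e2]
  ring

theorem bandLimited_sinc (ω : ℝ) : BandLimited |ω| (fun x => ((Real.sinc (ω * x) : ℝ) : ℂ)) := by
  refine ⟨ℝ, inferInstance, (volume : Measure ℝ).restrict (Set.Ioc (-1) 1), inferInstance,
    fun u => ω * (max (-1) (min u 1)), fun _ => 1 / 2, 1 / 2, by fun_prop, by fun_prop,
    fun u => ?_, fun _ => ?_, fun x => ?_⟩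
  · rw [abs_mul]
    have : |max (-1) (min u 1)| ≤ 1 := by
      rw [abs_le]
      exact ⟨le_max_left _ _, max_le (by norm_num) (min_le_right _ _)⟩
    exact mul_le_of_le_one_right (abs_nonneg _) this
  · norm_num
  · have key : ∫ u in Set.Ioc (-1 : ℝ) 1, (1 / 2 : ℂ) * Complex.exp (Complex.I *
        (((ω * (max (-1) (min u 1)) : ℝ) : ℂ) * (x : ℂ)))
        = (1 / 2 : ℂ) * ∫ u in (-1 : ℝ)..1, Complex.exp (((ω * x) * u : ℝ) * Complex.I) := by
      rw [intervalIntegral.integral_of_le (by norm_num), ← integral_const_mul]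
      refine setIntegral_congr_fun measurableSet_Ioc fun u hu => ?_
      have hu' : max (-1) (min u 1) = u := by
        rw [min_eq_left hu.2, max_eq_right hu.1.le]
      simp only [hu']
      congr 2
      push_cast
      ring
    rw [key]
    by_cases hz : ω * x = 0
    · have : ω = 0 ∨ x = 0 := mul_eq_zero.1 hz
      rw [hz]
      rcases this with h | h
      · simp [h]
        norm_num
      · simp [h]
        norm_num
    · have h := intervalIntegral.integral_comp_mul_left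
        (fun u : ℝ => Complex.exp ((u : ℂ) * Complex.I)) (a := (-1 : ℝ)) (b := 1) hz
      rw [h, mul_neg_one, mul_one, integral_exp_mul_I_eq_sinc]
      have hz' : ((ω * x : ℝ) : ℂ) ≠ 0 := by exact_mod_cast hz
      rw [Complex.real_smul, Complex.ofReal_inv]
      field_simp

end Pool.Agent.Helper99.Tile
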